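import Pool.Agent.Y996.QH.Stm

/-!
# Project QH (helper996): joining two connected sets of vertices in the quadrant
-/

set_option autoImplicit false

namespace Pool.Agent.Y655.QH

open H974 Finset TH976 Pool.Agent.H160R2.CV Pool.Agent.H160R2.CV.Quad
open H973 (dlt dlt_pos dlt_le)
open Pool.Agent.Y996.RD (EN last_in)
open Pool.Agent.Y996.QH (S_AR S_JL)

theorem CQ_cut {c : Vtx} (hc : InV c) {R : ℕ} {F : Finset Edg} (h : CQ c R F) :
    CQ c R (F ∩ qb c (3 * R)) := by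
  obtain ⟨⟨h1, h2⟩, h3, h4⟩ := h
  obtain ⟨hc1, hc2⟩ := hc
  have hsub : ∀ {a b c' d : ℤ}, max 0 (c.1 - 3 * R) ≤ a → b ≤ c.1 + 3 * R →
      max 0 (c.2 - 3 * R) ≤ c' → d ≤ c.2 + 3 * R → RE a b c' d ⊆ qb c (3 * R) := by
    intro a b c' d h1 h2 h3 h4
    unfold qb
    apply RE_subset <;> push_cast <;> assumption
  refine ⟨⟨(TBc_local (TBE_subset_RE.trans (hsub (by omega) (by omega) (by omega)
    (by omega)))).1 h1, (LRc_local (LRE_subset_RE.trans (hsub (by omega) (by omega) (by omega)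
    (by omega)))).1 h2⟩, fun k => ?_, fun k => ?_⟩
  · exact (TBc_local (TBE_subset_RE.trans (hsub (by omega) (by omega) (by omega)
      (by omega)))).1 (h3 k)
  · exact (LRc_local (LRE_subset_RE.trans (hsub (by omega) (by omega) (by omega)
      (by omega)))).1 (h4 k)

theorem reach_qb {F : Finset Edg} {c : Vtx} {m : ℕ} (hF : F ⊆ qb c m) {u v : Vtx}
    (hu : TH976.sd u c ≤ m) (h : Reach (↑F : Set Edg) u v) : TH976.sd v c ≤ m := by
  induction h with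
  | refl => exact hu
  | tail _ hs _ =>
    obtain ⟨e, he, hcase⟩ := hs
    have h1 := qb_ends (hF (Finset.mem_coe.mp he))
    rcases hcase with ⟨_, h4⟩ | ⟨h4, _⟩
    · rw [← h4]; exact h1.2.2
    · rw [← h4]; exact h1.1.2

theorem exitN {N : Set Vtx} (hN : ∀ v ∈ N, InV v) {c b : Vtx} {n : ℕ} (hb : n ≤ TH976.sd b c)
    (h : Reach (EN N) c b) : ∃ w, n ≤ TH976.sd w c ∧ Reach (EN N ∩ ↑(qb c n)) c w := by
  obtain ⟨w, h1, h2, h3⟩ := first_exit (a := c.1 - n) (b := c.1 + n) (c := c.2 - n)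
    (d := c.2 + n) (by unfold inR; omega) h (by unfold TH976.sd at hb; omega)
  refine ⟨w, by unfold TH976.sd; omega, h3.mono ?_⟩
  rintro ⟨x, y, bo⟩ ⟨k1, k2⟩
  refine ⟨k1, ?_⟩
  have h4 := hN _ k1.1
  rw [src_mk] at h4
  unfold InV at h4
  simp only at h4
  cases bo
  · rw [Finset.mem_coe, mem_RE_false] at k2
    rw [Finset.mem_coe, qb, mem_RE_false]
    omega
  · rw [Finset.mem_coe, mem_RE_true] at k2
    rw [Finset.mem_coe, qb, mem_RE_true]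
    omega

open Classical in
/-- A connected set of vertices and a crossing, in presence of a circuit. -/
theorem use {c : Vtx} (hc : InV c) {m n : ℕ} (hmn : 3 * m ≤ n) {F : Finset Edg} (hF : InQ F)
    (h : (m = 0 ∨ CQ c m F) ∧ Cx c m n F) {N : Set Vtx} (hN : ∀ v ∈ N, InV v) (hx : c ∈ N)
    (hb : 0 < m → ∃ b, Reach (EN N) c b ∧ 3 * m ≤ TH976.sd b c) :
    ∃ y ∈ N, TH976.sd y c ≤ 3 * m ∧ ∃ v, n ≤ TH976.sd v c ∧ Reach (↑F : Set Edg) y v := by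
  obtain ⟨h1, u, v, hu0, hu, hv, hr⟩ := h
  rcases Nat.eq_zero_or_pos m with hm | hm
  · subst hm
    have huc : u = c := by
      unfold TH976.sd at hu
      exact Prod.ext (by omega) (by omega)
    subst huc
    exact ⟨u, hx, (TH976.sd_self u).le.trans (by omega), v, hv, hr⟩
  · obtain ⟨b, hb1, hb2⟩ := hb hm
    have hC := h1.resolve_left (by omega)
    obtain ⟨F1, hF1⟩ : ∃ F1 : Finset Edg, F1 = (F ∩ qb c (3 * m)) ∪
      (qb c (3 * m)).filter (fun e => e ∈ EN N) := ⟨_, rfl⟩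
    have hF1s : F1 ⊆ qb c (3 * m) := by
      rw [hF1]
      exact union_subset inter_subset_right (filter_subset _ _)
    have hQ1 : InQ F1 := (qb_inQ _ _).mono hF1s
    have g1 : EN N ∩ ↑(qb c (3 * m)) ⊆ (↑F1 : Set Edg) := by
      rintro e ⟨k1, k2⟩
      rw [hF1, Finset.mem_coe, Finset.mem_union, Finset.mem_filter]
      exact Or.inr ⟨Finset.mem_coe.mp k2, k1⟩
    have g2 : (↑F : Set Edg) ∩ ↑(qb c (3 * m)) ⊆ (↑F1 : Set Edg) := by
      rintro e ⟨k1, k2⟩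
      rw [hF1, Finset.mem_coe, Finset.mem_union, Finset.mem_inter]
      exact Or.inl ⟨Finset.mem_coe.mp k1, Finset.mem_coe.mp k2⟩
    have g3 : (↑F1 : Set Edg) ⊆ (↑(F ∩ qb c (3 * m)) : Set Edg) ∪ EN N := by
      intro e he
      rw [hF1, Finset.mem_coe, Finset.mem_union, Finset.mem_filter] at he
      rcases he with he | he
      · exact Or.inl (Finset.mem_coe.mpr he)
      · exact Or.inr he.2
    obtain ⟨z, hz⟩ := CQ_meet hc (by omega) hQ1 ((CQ_cut hc hC).mono (by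
      rw [hF1]; exact subset_union_left))
    obtain ⟨w, w1, w2⟩ := exitN hN hb2 hb1
    have q1 : Reach (↑F1 : Set Edg) c z :=
      hz c w hc (by rw [TH976.sd_self]; omega) w1 (w2.mono g1)
    obtain ⟨w', l1, l2⟩ := exitQ hF (c := c) (n := 3 * m) (u := u) (v := v)
      (hu.trans (by omega)) (hmn.trans hv) hr
    have q2 : Reach (↑F1 : Set Edg) u z := hz u w' hu0 hu l1.ge (l2.mono g2)
    obtain ⟨y, hy, hyr⟩ := last_in hx ((q1.trans q2.symm).mono g3)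
    refine ⟨y, hy, reach_qb inter_subset_right (hu.trans (by omega)) hyr.symm, v, hv,
      (hyr.mono ?_).trans hr⟩
    exact_mod_cast inter_subset_left

theorem pr_Ev {c : Vtx} (hc : InV c) {m n : ℕ} (hmn : 3 * m ≤ n) {S : Finset Edg}
    (hS : qb c n ⊆ S) {β : ℝ} (hβ : 0 ≤ β) (h : β ≤ Pr P (qb c n) (Cx c m n)) :
    dlt ^ 4 * β ≤ Pr P S (fun F => (m = 0 ∨ CQ c m F) ∧ Cx c m n F) := by
  have e1 : dlt ^ 4 ≤ Pr P S (fun F => m = 0 ∨ CQ c m F) := by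
    rcases Nat.eq_zero_or_pos m with hm | hm
    · rw [pr_true S (fun F => Or.inl hm)]
      exact pow_le_one₀ dlt_pos.le dlt_le
    · exact (pr_CQ hc hm ((qb_mono hmn).trans hS)).trans (Pr_mono okP (fun F _ h => Or.inr h))
  exact fkg (fun F G h _ hF => hF.imp id (fun h1 => h1.mono h)) (Cx_incr _ _ _ _) hβ e1
    (h.trans (Pr_mono_set okP hS (Cx_incr _ _ _ _)))

theorem third {A : ℝ} (hA : 0 < A) : A ^ ((1 : ℝ) / 3) / 7 ≤ (A / 7) ^ ((1 : ℝ) / 3) := by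
  rw [Real.div_rpow hA.le (by norm_num)]
  apply div_le_div_of_nonneg_left (Real.rpow_nonneg hA.le _)
    (Real.rpow_pos_of_pos (by norm_num) _)
  calc (7 : ℝ) ^ ((1 : ℝ) / 3) ≤ 7 ^ (1 : ℝ) :=
        Real.rpow_le_rpow_of_exponent_le (by norm_num) (by norm_num)
    _ = 7 := Real.rpow_one 7

theorem jl : S_AR → S_JL := by
  rintro ⟨c, C, hc, hC, hAR⟩
  obtain ⟨k, hk⟩ : ∃ k : ℝ, k = dlt ^ 4 := ⟨_, rfl⟩
  have hk0 : 0 < k := by rw [hk]; exact pow_pos dlt_pos 4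
  refine ⟨k ^ 3 * (c * c) / 49, by positivity, ?_⟩
  intro m1 m2 D x1 x2 N1 N2 hD h1 h2 hx hx1 hx2 hfar ha1 ha2 hN1 hN2 hxN1 hxN2 hb1 hb2
  obtain ⟨S, hS⟩ : ∃ S : Finset Edg, S = qb x1 (8 * D) := ⟨_, rfl⟩
  have hSQ : InQ S := by rw [hS]; exact qb_inQ _ _
  have s1 : qb x1 (7 * D) ⊆ S := by rw [hS]; exact qb_mono (by omega)
  have hx' := TH976.sd_comm x1 x2
  have s2 : qb x2 (7 * D) ⊆ S := by rw [hS]; exact qb_sub (by omega)
  have hD0 : (0 : ℝ) < D := by exact_mod_cast hD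
  -- the crossings
  obtain ⟨A1, hA1⟩ : ∃ A1 : ℝ, A1 = ((m1 : ℝ) + 1) / D := ⟨_, rfl⟩
  obtain ⟨A2, hA2⟩ : ∃ A2 : ℝ, A2 = ((m2 : ℝ) + 1) / D := ⟨_, rfl⟩
  have hA10 : 0 < A1 := by rw [hA1]; positivity
  have hA20 : 0 < A2 := by rw [hA2]; positivity
  have hfar2 : ((7 * D : ℕ) : ℤ) ≤ x2.1 := by
    clear hb1 hb2 hN1 hN2 hxN1 hxN2
    unfold TH976.sd at hx
    push_cast
    omega
  have b1 : c * (A1 ^ ((1 : ℝ) / 3) / 7) ≤ Pr P (qb x1 (7 * D)) (Cx x1 m1 (7 * D)) := by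
    have := (hAR x1 m1 (7 * D) hx1 (by omega) (by omega) (by push_cast; omega)
      (by push_cast; exact ha1)).1
    refine le_trans ?_ this
    apply mul_le_mul_of_nonneg_left _ hc.le
    have e : ((m1 : ℝ) + 1) / ((7 * D : ℕ) : ℝ) = A1 / 7 := by
      rw [hA1]; push_cast; field_simp
    rw [e]
    exact third hA10
  have b2 : c * (A2 ^ ((1 : ℝ) / 3) / 7) ≤ Pr P (qb x2 (7 * D)) (Cx x2 m2 (7 * D)) := by
    have := (hAR x2 m2 (7 * D) hx2 (by omega) (by omega) hfar2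
      (by push_cast; exact ha2)).1
    refine le_trans ?_ this
    apply mul_le_mul_of_nonneg_left _ hc.le
    have e : ((m2 : ℝ) + 1) / ((7 * D : ℕ) : ℝ) = A2 / 7 := by
      rw [hA2]; push_cast; field_simp
    rw [e]
    exact third hA20
  have n1 : 0 ≤ c * (A1 ^ ((1 : ℝ) / 3) / 7) := by positivity
  have n2 : 0 ≤ c * (A2 ^ ((1 : ℝ) / 3) / 7) := by positivity
  have e1 := pr_Ev hx1 (m := m1) (n := 7 * D) (by omega) s1 n1 b1
  have e2 := pr_Ev hx2 (m := m2) (n := 7 * D) (by omega) s2 n2 b2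
  have e3 : dlt ^ 4 ≤ Pr P S (CQ x1 (2 * D)) :=
    pr_CQ hx1 (by omega) (by rw [hS]; exact qb_mono (by omega))
  have i1 : ∀ (x : Vtx) (m : ℕ), IncrE S (fun F => (m = 0 ∨ CQ x m F) ∧ Cx x m (7 * D) F) :=
    fun x m F G h _ hF => ⟨hF.1.imp id (fun h1 => h1.mono h), hF.2.mono h⟩
  rw [← hk] at e1 e2 e3
  have f1 := fkg (i1 x1 m1) (i1 x2 m2) (mul_nonneg hk0.le n2) e1 e2
  have f2 := fkg (incr_and (i1 x1 m1) (i1 x2 m2)) (CQ_incr S x1 (2 * D)) hk0.le f1 e3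
  have fin : Pr P S (fun F => (((m1 = 0 ∨ CQ x1 m1 F) ∧ Cx x1 m1 (7 * D) F) ∧
      ((m2 = 0 ∨ CQ x2 m2 F) ∧ Cx x2 m2 (7 * D) F)) ∧ CQ x1 (2 * D) F) ≤
      Pr P S (fun F => ∃ u ∈ N1, ∃ v ∈ N2, Reach (↑F : Set Edg) u v) := by
    apply Pr_mono okP
    rintro F hF ⟨⟨k1, k2⟩, k3⟩
    have hQ : InQ F := hSQ.mono hF
    obtain ⟨y1, hy1, hd1, v1, hv1, hr1⟩ := use hx1 (by omega) hQ k1 hN1 hxN1 hb1
    obtain ⟨y2, hy2, hd2, v2, hv2, hr2⟩ := use hx2 (by omega) hQ k2 hN2 hxN2 hb2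
    obtain ⟨z, hz⟩ := CQ_meet hx1 (by omega) hQ k3
    have t1 := TH976.sd_tri y2 x2 x1
    have t2 := TH976.sd_tri v2 x1 x2
    have q1 := hz y1 v1 (hN1 _ hy1) (by omega) (by omega) hr1
    have q2 := hz y2 v2 (hN2 _ hy2) (by omega) (by omega) hr2
    exact ⟨y1, hy1, y2, hy2, q1.trans q2.symm⟩
  rw [← hA1, ← hA2, ← hS]
  refine le_trans (le_of_eq ?_) (f2.trans fin)
  rw [Real.mul_rpow hA10.le hA20.le]
  ring

end Pool.Agent.Y655.QH
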